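import Mathlib
import Pool.Agent.H.MP_9f86c8_nt.A
set_option autoImplicit false

namespace Pool.Agent.Results.MP_9f86c8_nt.Yes
open Filter Topology

/-- A set of positive integers with no three-term geometric progression `a < b < c`,
`b ^ 2 = a * c` (rational ratio). -/
def GPFree (A : Set ℕ) : Prop :=
  (∀ n ∈ A, 1 ≤ n) ∧ ∀ a ∈ A, ∀ b ∈ A, ∀ c ∈ A, a < b → b < c → b ^ 2 ≠ a * c

/-- `|A ∩ [1, N]| / N`. -/
noncomputable def ratio (A : Set ℕ) (N : ℕ) : ℝ := ((A ∩ Set.Icc 1 N).ncard : ℝ) / N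

/-- supremum of the densities of GP-free sets having a density. -/
noncomputable def alpha : ℝ := sSup {d | ∃ A, GPFree A ∧ Tendsto (ratio A) atTop (𝓝 d)}

/-- supremum of the upper densities of GP-free sets. -/
noncomputable def alphaBar : ℝ := sSup {d | ∃ A, GPFree A ∧ limsup (ratio A) atTop = d}

open Classical in
theorem ratio_eq (A : Set ℕ) (N : ℕ) :
    ratio A N = (((Finset.Icc 1 N).filter fun n => n ∈ A).card : ℝ) / N := by
  rw [ratio, ← Set.ncard_coe_finset]
  congr 3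
  ext n
  simp only [Set.mem_inter_iff, Set.mem_Icc, Finset.coe_filter, Finset.mem_Icc, Set.mem_setOf_eq]
  tauto

theorem ratio_le (A : Set ℕ) (N : ℕ) : ratio A N ≤ 1 := by
  classical
  rw [ratio_eq]
  refine div_le_one_of_le₀ ?_ (by positivity)
  have := Finset.card_filter_le (Finset.Icc 1 N) fun n => n ∈ A
  rw [Nat.card_Icc, Nat.add_sub_cancel] at this
  exact_mod_cast this

theorem ratio_nonneg (A : Set ℕ) (N : ℕ) : 0 ≤ ratio A N := by
  unfold ratio
  positivity

theorem bdd (A : Set ℕ) : IsBoundedUnder (· ≤ ·) atTop (ratio A) :=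
  isBoundedUnder_of ⟨1, ratio_le A⟩

theorem result : alpha < alphaBar := by
  classical
  obtain ⟨c, hc, H⟩ := Pool.Agent.H.MP_9f86c8_nt.gain
  have hb : BddAbove {d | ∃ A, GPFree A ∧ limsup (ratio A) atTop = d} := by
    refine ⟨1, ?_⟩
    rintro d ⟨A, -, rfl⟩
    exact limsup_le_of_le (isCoboundedUnder_le_of_le atTop (ratio_nonneg A))
      (Eventually.of_forall (ratio_le A))
  have hne : {d | ∃ A, GPFree A ∧ Tendsto (ratio A) atTop (𝓝 d)}.Nonempty := by
    refine ⟨0, ∅, ⟨by simp, by simp⟩, ?_⟩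
    have : ratio ∅ = fun _ => 0 := by
      funext N
      simp [ratio]
    rw [this]
    exact tendsto_const_nhds
  have : alpha ≤ alphaBar - c / 2 := by
    refine csSup_le hne ?_
    rintro d ⟨A, hA, hd⟩
    obtain ⟨N1, hN1⟩ := eventually_atTop.1 (hd.eventually (lt_mem_nhds (show d - c / 4 < d by linarith)))
    obtain ⟨L, hL⟩ := exists_nat_gt (4 / c)
    have hL0 : (0 : ℝ) < L := lt_trans (by positivity) hL
    have hL1 : (1 : ℝ) / L ≤ c / 4 := by
      rw [div_lt_iff₀ hc] at hL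
      rw [div_le_iff₀ hL0]
      linarith
    obtain ⟨C, c1, c2, c3⟩ := Pool.Agent.H.MP_9f86c8_nt.glue (θ := d + 3 * c / 4) (fun N0 => by
      obtain ⟨N, h1, B, b1, b2, b3⟩ := H A hA.2 (max N0 (N1 + 1))
      refine ⟨N, (le_max_left _ _).trans h1, B, b1, b2, ?_⟩
      have h2 : N1 + 1 ≤ N := (le_max_right _ _).trans h1
      have h3 := hN1 N (by omega)
      have hN : (0 : ℝ) < N := by exact_mod_cast (by omega : 0 < N)
      rw [ratio_eq, lt_div_iff₀ hN] at h3
      nlinarith) L (by exact_mod_cast hL0)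
    have h1 : d + c / 2 ≤ limsup (ratio C) atTop := by
      refine le_limsup_of_frequently_le (frequently_atTop.2 fun N0 => ?_) (bdd C)
      obtain ⟨N, h1, h2⟩ := c3 (N0 + 1)
      have hN : (0 : ℝ) < N := by exact_mod_cast (by omega : 0 < N)
      refine ⟨N, by omega, ?_⟩
      rw [ratio_eq, le_div_iff₀ hN]
      nlinarith
    have h2 : limsup (ratio C) atTop ≤ alphaBar := le_csSup hb ⟨C, ⟨c1, c2⟩, rfl⟩
    linarith
  linarith

end Pool.Agent.Results.MP_9f86c8_nt.Yes
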